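import Pool.Agent.Helper45.LinK.GoalsN

/-!
# Packet LINE: bounded solutions of the inhomogeneous Cauchy-Riemann equation with entire
right hand side
-/

namespace Pool.Agent.Helper27.LinK

open Complex Metric Set Filter Topology
open scoped ComplexConjugate
open Pool.Agent.Helper45.LinK

theorem LINE : S_LINE := by
  intro f τ hf hτ hcr hb
  obtain ⟨C, hC⟩ := hb
  -- the entire function q
  set q : ℂ → ℂ := fun z => f z - conj z * τ z / 2 with hq
  have hτr : Differentiable ℝ τ := fun z => (hτ z).restrictScalars ℝ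
  have hconj : ∀ z : ℂ, HasFDerivAt (fun w : ℂ => conj w)
      (Complex.conjCLE.toContinuousLinearMap : ℂ →L[ℝ] ℂ) z := by
    intro z
    exact Complex.conjCLE.toContinuousLinearMap.hasFDerivAt
  have hderiv : ∀ z : ℂ, HasFDerivAt q (fderiv ℝ f z - (1 / 2 : ℝ) •
      (conj z • fderiv ℝ τ z + τ z • (Complex.conjCLE.toContinuousLinearMap : ℂ →L[ℝ] ℂ))) z := by
    intro z
    have h1 := ((hconj z).mul (hτr z).hasFDerivAt)
    have h2 := h1.const_smul (1 / 2 : ℝ)
    have h3 := (hf z).hasFDerivAt.sub h2
    refine h3.congr_of_eventuallyEq (Filter.Eventually.of_forall fun w => ?_)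
    simp only [hq, Pi.sub_apply, Pi.smul_apply, Pi.mul_apply, Complex.real_smul]
    push_cast
    ring
  have hqd : Differentiable ℂ q := by
    intro z
    rw [differentiableAt_complex_iff_differentiableAt_real]
    refine ⟨(hderiv z).differentiableAt, ?_⟩
    rw [(hderiv z).fderiv]
    have h1 := hcr z
    have h2 : fderiv ℝ τ z I = I * fderiv ℝ τ z 1 := by
      have := (differentiableAt_complex_iff_differentiableAt_real.mp (hτ z)).2
      simpa [smul_eq_mul] using this
    have h3 : fderiv ℝ f z I = I * fderiv ℝ f z 1 - I * τ z := by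
      have : I * (fderiv ℝ f z 1 + I * fderiv ℝ f z I) = I * τ z := by rw [h1]
      have hI := Complex.I_mul_I
      linear_combination (fderiv ℝ f z I) * hI - this
    simp only [sub_apply, smul_apply, add_apply, smul_eq_mul, Complex.real_smul,
      ContinuousLinearEquiv.coe_coe, Complex.conjCLE_apply, Complex.conj_I, map_one]
    rw [h2, h3]
    push_cast
    ring
  -- the estimate on circles
  have key : ∀ r : ℝ, 0 < r → r ^ 2 / 2 * ‖τ 0‖ ≤ r * C := by
    intro r hr
    set p : ℂ → ℂ := fun z => (r ^ 2 / 2 : ℂ) * τ z + z * q z with hp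
    have hpd : Differentiable ℂ p := by
      intro z
      exact ((hτ z).const_mul _).add (differentiableAt_id.mul (hqd z))
    have h1 : ∀ z ∈ frontier (ball (0 : ℂ) r), ‖p z‖ ≤ r * C := by
      intro z hz
      rw [frontier_ball (0 : ℂ) hr.ne', mem_sphere_zero_iff_norm] at hz
      have h2 : z * conj z = (r : ℂ) ^ 2 := by
        rw [Complex.mul_conj, Complex.normSq_eq_norm_sq, hz]
        push_cast
        rfl
      have h3 : p z = z * f z := by
        simp only [hp, hq]
        linear_combination (-(τ z) / 2) * h2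
      rw [h3, norm_mul, hz]
      exact mul_le_mul_of_nonneg_left (hC z) hr.le
    have h4 := Complex.norm_le_of_forall_mem_frontier_norm_le (isBounded_ball (x := (0 : ℂ))
      (r := r)) hpd.diffContOnCl h1 (subset_closure (mem_ball_self hr))
    have h5 : ‖p 0‖ = r ^ 2 / 2 * ‖τ 0‖ := by
      simp only [hp, zero_mul, add_zero, norm_mul]
      congr 1
      have : ((r : ℂ) ^ 2 / 2) = ((r ^ 2 / 2 : ℝ) : ℂ) := by push_cast; rfl
      rw [this, Complex.norm_real, Real.norm_of_nonneg (by positivity)]
    linarith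
  have hC0 : 0 ≤ C := (norm_nonneg _).trans (hC 0)
  by_contra hne
  have hpos : 0 < ‖τ 0‖ := norm_pos_iff.mpr hne
  have h := key (2 * (C + 1) / ‖τ 0‖) (by positivity)
  have h6 : (2 * (C + 1) / ‖τ 0‖) ^ 2 / 2 * ‖τ 0‖ = (2 * (C + 1) / ‖τ 0‖) * (C + 1) := by
    field_simp
  rw [h6] at h
  have h7 : 0 < 2 * (C + 1) / ‖τ 0‖ := by positivity
  have h8 := le_of_mul_le_mul_left h h7
  linarith

end Pool.Agent.Helper27.LinK
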